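import Pool.Agent.H671R2.SF.Final

/-!
# Strongly stable matchings in the stable fixtures problem with ties: a polynomial-time algorithm
-/

set_option autoImplicit false

namespace Pool.Agent.Results.MP_00b752_lc.StronglyStableFixtures

open Pool.Agent.NPC Pool.Agent.H671R2.SF

/-- There is a polynomial-time algorithm (a Turing machine in Mathlib's sense) which, for every
instance of the stable fixtures problem with ties, returns the adjacency matrix of a strongly
stable matching if there is one, and `none` otherwise. -/
theorem result : ∃ A : List Bool → List Bool, PolyTime A ∧ ∀ (n : ℕ) (I : SFT n),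
    ((∃ M, I.StronglyStable M) → ∃ M : SimpleGraph (Fin n), I.StronglyStable M ∧
      A I.enc = bits (some (R671.adjMatrix M))) ∧
    ((¬ ∃ M, I.StronglyStable M) → A I.enc = bits (none : Option (List (List Bool)))) := by
  refine ⟨fun x => bits (algS x), polyTime_bits poly_algS, fun n I => ⟨?_, fun h => ?_⟩⟩
  · rintro ⟨M, hM⟩
    obtain ⟨M', h1, h2⟩ := solveR_some I hM
    refine ⟨M', h1, ?_⟩
    change bits (algS I.enc) = _
    rw [algS_enc, h2]
  · push Not at h
    change bits (algS I.enc) = _
    rw [algS_enc, solveR_none I h]

end Pool.Agent.Results.MP_00b752_lc.StronglyStableFixtures
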